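import Pool.Agent.helper99.KG.K34
import Pool.Agent.helper52.EF.CT

/-! # Project KG: k2 -/

namespace Pool.Agent.helper88.KG

open Finset Pool.Agent.helper76.LP Pool.Agent.helper88.EF

/-- general scheme: a cube with nonzero difference gives a test function contradicting the
estimate -/
theorem K2_scheme (D q : ℕ) [NeZero D] (L : List ℕ) (ev : Prop) (K : ℤ) (f : (ZMod D)ˣ → ℤ)
    (h : RK D q L ev K f) (V : ℕ → Set (ZMod D)ˣ)
    (hV : ∀ p ∈ L, Gam D p ≤ Subgroup.closure (V p)) (hVG : ∀ p ∈ L, ∀ u ∈ V p, u ∈ Gam D p)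
    (hb : ∀ v : ℕ → (ZMod D)ˣ, (∀ p ∈ L, v p ∈ V p) → (∀ p ∈ L, v p ≠ 1) →
      ((-1 : (ZMod D)ˣ) ∉ Pl (Gam D) (q :: L) ∨ ∃ p ∈ L, v p * v p ≠ 1) ∧
      ∃ B : ℤ, K * B < 2 * (Nat.card (Gam D q) : ℤ) ∧
        ∀ z ψ, Cub D q L v z ψ → Bd D ev ψ B) : MDv (Gam D) L f := by
  have hnd := h.nd
  rw [List.nodup_cons] at hnd
  refine mdv_of_dl (Gam D) L hnd.2 V hV f ?_
  intro v hv x
  by_cases hv1 : ∀ p ∈ L, v p ≠ 1
  · obtain ⟨h1, B, hB, h2⟩ := hb v hv hv1
    obtain ⟨ψ, hT, hC, hs⟩ := cube_test D q L h.nd h.hL v (fun p hp => hVG p hp _ (hv p hp)) hv1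
      h1 x
    have h3 := h.est ψ B hT (h2 x ψ hC)
    rw [hs f h.odd h.mdv] at h3
    by_contra hne
    have h4 : 1 ≤ |dl v L f x| := Int.one_le_abs hne
    rw [abs_mul, abs_mul] at h3
    have h5 : |(2 : ℤ)| = 2 := by norm_num
    have h6 : |(Nat.card (Gam D q) : ℤ)| = (Nat.card (Gam D q) : ℤ) := abs_of_nonneg (by positivity)
    rw [h5, h6] at h3
    have h7 : 2 * (Nat.card (Gam D q) : ℤ) * 1 ≤ 2 * (Nat.card (Gam D q) : ℤ) * |dl v L f x| :=
      mul_le_mul_of_nonneg_left h4 (by positivity)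
    linarith
  · push Not at hv1
    obtain ⟨p, hp, hp1⟩ := hv1
    rw [dl_erase v L p hp, hp1, one_mul, sub_self]

theorem K2_card (D q : ℕ) [NeZero D] (L : List ℕ) (ev : Prop) (K : ℤ) (f : (ZMod D)ˣ → ℤ)
    (h : RK D q L ev K f) : 2 * ((q : ℤ) - 1) ≤ 2 * (Nat.card (Gam D q) : ℤ) := by
  have hq := K2_mem D q L h.hL q List.mem_cons_self
  rw [card_Gam D q hq.1 hq.2]
  have h1 := hq.1.one_lt
  split_ifs
  · linarith
  · have h3 : ((q - 1 : ℕ) : ℤ) = (q : ℤ) - 1 := by omega
    rw [h3]

/-- a generator of `Gam D p` has order greater than two if `p ≥ 5` -/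
theorem K2_gen (D p : ℕ) [NeZero D] (hp : p.Prime) (hpD : p ∣ D) (h5 : 5 ≤ p) :
    ∃ g ∈ Gam D p, Gam D p ≤ Subgroup.closure {g} ∧ g * g ≠ 1 := by
  obtain ⟨g, hg, hc⟩ := gam_cyclic D p hp hpD
  refine ⟨g, hg, hc, ?_⟩
  intro h
  have h1 : Nat.card (Gam D p) ≤ 2 := by
    have h2 : Nat.card (Gam D p) ≤ Nat.card (Subgroup.closure {g}) :=
      Nat.card_le_card_of_injective _ (Subgroup.inclusion_injective hc)
    rw [← Subgroup.zpowers_eq_closure, Nat.card_zpowers] at h2
    have h3 : orderOf g ∣ 2 := orderOf_dvd_of_pow_eq_one (by rw [pow_two, h])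
    exact h2.trans (Nat.le_of_dvd (by norm_num) h3)
  rw [card_Gam D p hp hpD] at h1
  split_ifs at h1 <;> omega

theorem k2 (D q : ℕ) [NeZero D] (L : List ℕ) (ev : Prop) (K : ℤ) (f : (ZMod D)ˣ → ℤ)
    (h : RK D q L ev K f) (h4 : 4 ∣ D) (h2 : ¬ q * q ∣ D) (ha : D ≠ 4 * q)
    (hb : D ≠ 12 * q) : MDv (Gam D) L f := by
  classical
  have hmem := K2_mem D q L h.hL
  have hcard := K2_card D q L ev K f h
  have hK := h.hK
  have hbd : ∀ (v : ℕ → (ZMod D)ˣ) z ψ, Cub D q L v z ψ → Bd D ev ψ 1 := by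
    intro v z ψ hψ
    refine bd_one D q L v z ψ hψ ev ?_
    intro _ ho
    exfalso
    rw [Nat.odd_iff] at ho
    omega
  by_cases hs : (∃ r : ℕ, r.Prime ∧ 3 ≤ r ∧ r * r ∣ D) ∨ 8 ∣ D
  · refine K2_scheme D q L ev K f h (fun p => (Gam D p : Set (ZMod D)ˣ))
      (fun p _ => Subgroup.subset_closure) (fun p _ u hu => hu) ?_
    intro v hv hv1
    exact ⟨Or.inl (neg_one_not D q L h.hL hs), 1, by linarith, hbd v⟩
  · -- there is a further prime at least 5
    have hD0 : D ≠ 0 := NeZero.ne D
    have hex : ∃ p ∈ L, 5 ≤ p := by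
      by_contra hno
      push Not at hs hno
      obtain ⟨n, hn⟩ := (hmem q List.mem_cons_self).2
      have hn0 : n ≠ 0 := by
        rintro rfl
        rw [mul_zero] at hn
        exact hD0 hn
      have hnd := h.nd
      rw [List.nodup_cons] at hnd
      have hnD : n ∣ D := ⟨q, by rw [hn, mul_comm]⟩
      have hn12 : n ∣ 12 := by
        rw [← Nat.factorization_prime_le_iff_dvd hn0 (by norm_num)]
        intro p hpp
        by_cases hd : p ∣ n
        · have hpD : p ∣ D := hd.trans hnD
          have hpq : p ≠ q := by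
            rintro rfl
            apply h2
            rw [hn]
            exact Nat.mul_dvd_mul_left p hd
          have hpL : p ∈ L := by
            have h3 : p ∈ (q :: L).toFinset := by
              rw [h.hL]; exact Nat.mem_primeFactors.2 ⟨hpp, hpD, hD0⟩
            rcases List.mem_cons.1 (List.mem_toFinset.1 h3) with h5 | h5
            · exact absurd h5 hpq
            · exact h5
          have h5 := hno p hpL
          have h6 := hpp.two_le
          have h7 : p ≠ 4 := by rintro rfl; norm_num at hpp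
          have h8 : p = 2 ∨ p = 3 := by omega
          rcases h8 with rfl | rfl
          · have h9 : 2 ≤ Nat.factorization 12 2 :=
              ((Nat.Prime.pow_dvd_iff_le_factorization hpp (by norm_num)).1
                (by norm_num : 2 ^ 2 ∣ 12))
            have h10 : ¬ 3 ≤ n.factorization 2 := by
              intro h11
              exact hs.2 (((Nat.Prime.pow_dvd_iff_le_factorization hpp hn0).2 h11).trans hnD)
            omega
          · have h9 : 1 ≤ Nat.factorization 12 3 :=
              ((Nat.Prime.pow_dvd_iff_le_factorization hpp (by norm_num)).1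
                (by norm_num : 3 ^ 1 ∣ 12))
            have h10 : ¬ 2 ≤ n.factorization 3 := by
              intro h11
              exact hs.1 3 hpp le_rfl (((Nat.Prime.pow_dvd_iff_le_factorization hpp hn0).2
                h11).trans hnD)
            omega
        · rw [Nat.factorization_eq_zero_of_not_dvd hd]
          exact Nat.zero_le _
      have hq2 : q ≠ 2 := by have := h.h11; omega
      have h4n : 4 ∣ n := by
        have h5 : Nat.Coprime 4 q := by
          have h6 : Nat.Coprime 2 q := (Nat.coprime_primes Nat.prime_two h.hq).2 (Ne.symm hq2)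
          have : (4 : ℕ) = 2 ^ 2 := by norm_num
          rw [this]
          exact Nat.Coprime.pow_left 2 h6
        apply h5.dvd_of_dvd_mul_left
        rw [← hn]
        exact h4
      have hn' : n = 4 ∨ n = 12 := by
        have h5 : n ≤ 12 := Nat.le_of_dvd (by norm_num) hn12
        interval_cases n <;> omega
      rcases hn' with rfl | rfl
      · exact ha (by rw [hn, mul_comm])
      · exact hb (by rw [hn, mul_comm])
    obtain ⟨p0, hp0, h5⟩ := hex
    have hp0' := hmem p0 (List.mem_cons_of_mem _ hp0)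
    obtain ⟨g, hg, hc, hgg⟩ := K2_gen D p0 hp0'.1 hp0'.2 h5
    refine K2_scheme D q L ev K f h
      (fun p => if p = p0 then {g} else (Gam D p : Set (ZMod D)ˣ)) ?_ ?_ ?_
    · intro p hp
      by_cases hpp : p = p0
      · rw [if_pos hpp, hpp]
        exact hc
      · rw [if_neg hpp]
        exact Subgroup.subset_closure
    · intro p hp u hu
      by_cases hpp : p = p0
      · rw [if_pos hpp, Set.mem_singleton_iff] at hu
        rw [hu, hpp]
        exact hg
      · rw [if_neg hpp] at hu
        exact hu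
    · intro v hv hv1
      refine ⟨Or.inr ⟨p0, hp0, ?_⟩, 1, by linarith, hbd v⟩
      have h6 := hv p0 hp0
      rw [if_pos rfl, Set.mem_singleton_iff] at h6
      rw [h6]
      exact hgg

end Pool.Agent.helper88.KG
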