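import Pool.Agent.helper88.KG.Defs
import Pool.Agent.helper13.EF.DL
import Pool.Agent.helper23.EF.RS
import Pool.Agent.helper54.QR.GB
import Pool.Agent.helper58.QR.GA

/-! # Project KG: k3, k4 -/

namespace Pool.Agent.helper88.KG

open Finset Pool.Agent.helper76.LP Pool.Agent.helper88.EF

theorem K2_mem (D q : ℕ) [NeZero D] (L : List ℕ) (hL : (q :: L).toFinset = D.primeFactors)
    (p : ℕ) (hp : p ∈ q :: L) : p.Prime ∧ p ∣ D := by
  have h1 : p ∈ D.primeFactors := by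
    rw [← hL]; exact List.mem_toFinset.2 hp
  exact ⟨Nat.prime_of_mem_primeFactors h1, Nat.dvd_of_mem_primeFactors h1⟩

lemma K2_le_Pl {G ι : Type*} [CommGroup G] (Γ : ι → Subgroup G) (L : List ι) (i : ι)
    (hi : i ∈ L) : Γ i ≤ Pl Γ L := by
  induction L with
  | nil => simp at hi
  | cons j L ih =>
    rw [Pl]
    rcases List.mem_cons.1 hi with h | h
    · subst h; exact le_sup_left
    · exact (ih h).trans le_sup_right

theorem K2_mem_Gam (D q r : ℕ) [NeZero D] (hr : r ∣ D) (hq : q ∣ D) (h : D / q = r)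
    (u : (ZMod D)ˣ) : u ∈ Gam D q ↔ ZMod.unitsMap hr u = 1 := by
  subst h
  unfold Gam
  rw [dif_pos hq, MonoidHom.mem_ker]

theorem K2_dl_neg (D : ℕ) (v : ℕ → (ZMod D)ˣ) (L : List ℕ) (f : (ZMod D)ˣ → ℤ)
    (hf : ∀ x, f (-x) = - f x) (x : (ZMod D)ˣ) : dl v L f (-x) = - dl v L f x := by
  induction L generalizing f with
  | nil => exact hf x
  | cons p L ih =>
    refine ih _ ?_
    intro y
    rw [mul_neg, hf, hf]
    ring

theorem K2_dl_inv {G : Type*} [CommGroup G] (v : ℕ → G) (L : List ℕ) (f : G → ℤ) (p : ℕ)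
    (hp : p ∈ L) (h : v p * v p = 1) (x : G) : dl v L f (v p * x) = - dl v L f x := by
  rw [dl_erase v L p hp f (v p * x), dl_erase v L p hp f x, ← mul_assoc, h, one_mul]
  ring

theorem K2_dl_q (D q : ℕ) [NeZero D] (L : List ℕ) (hnd : (q :: L).Nodup) (v : ℕ → (ZMod D)ˣ)
    (hv : ∀ p ∈ L, v p ∈ Gam D p) (f : (ZMod D)ˣ → ℤ) (hf : MDv (Gam D) (q :: L) f)
    (ξ : (ZMod D)ˣ) (hξ : ξ ∈ Gam D q) (x : (ZMod D)ˣ) :
    dl v L f (ξ * x) = dl v L f x := by
  rw [List.nodup_cons] at hnd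
  have hne : ∀ p ∈ L, p ≠ q := by
    rintro p hp rfl
    exact hnd.1 hp
  have h1 := dl_of_mdv (Gam D) (q :: L) f hf (fun p => if p = q then ξ else v p) (by
    intro p hp
    by_cases hpq : p = q
    · rw [if_pos hpq, hpq]
      exact hξ
    · rw [if_neg hpq]
      rcases List.mem_cons.1 hp with h | h
      · exact absurd h hpq
      · exact hv p h) x
  have h2 : dl (fun p => if p = q then ξ else v p) (q :: L) f x =
      dl (fun p => if p = q then ξ else v p) L (fun y => f (ξ * y) - f y) x := by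
    simp only [dl, if_true]
  rw [h2, DL_congr _ v L (fun p hp => if_neg (hne p hp)), DL_dl_lin] at h1
  linarith

theorem k3 (D q : ℕ) [NeZero D] (L : List ℕ) (ev : Prop) (K : ℤ) (f : (ZMod D)ˣ → ℤ)
    (h : RK D q L ev K f) (hD : D = 12 * q) : MDv (Gam D) L f := by
  have hmem := K2_mem D q L h.hL
  have hnd := h.nd
  rw [List.nodup_cons] at hnd
  have h11 := h.h11
  have hq := h.hq
  have hD0 : D ≠ 0 := NeZero.ne D
  have hqD : q ∣ D := (hmem q List.mem_cons_self).2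
  have hin : ∀ p : ℕ, p.Prime → p ∣ D → p ≠ q → p ∈ L := by
    intro p hp hpD hpq
    have h3 : p ∈ (q :: L).toFinset := by
      rw [h.hL]; exact Nat.mem_primeFactors.2 ⟨hp, hpD, hD0⟩
    rcases List.mem_cons.1 (List.mem_toFinset.1 h3) with h5 | h5
    · exact absurd h5 hpq
    · exact h5
  have h2D : 2 ∣ D := ⟨6 * q, by rw [hD]; ring⟩
  have h3D : 3 ∣ D := ⟨4 * q, by rw [hD]; ring⟩
  have h4D : 4 ∣ D := ⟨3 * q, by rw [hD]; ring⟩
  have h12D : 12 ∣ D := ⟨q, hD⟩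
  have h2L : 2 ∈ L := hin 2 Nat.prime_two h2D (by omega)
  have h3L : 3 ∈ L := hin 3 Nat.prime_three h3D (by omega)
  refine mdv_of_dl (Gam D) L hnd.2 (fun p => (Gam D p : Set (ZMod D)ˣ))
    (fun p _ => Subgroup.subset_closure) f ?_
  intro v hv x
  by_cases hv1 : ∀ p ∈ L, v p ≠ 1
  swap
  · push Not at hv1
    obtain ⟨p, hp, hp1⟩ := hv1
    rw [dl_erase v L p hp, hp1, one_mul, sub_self]
  have hDq : D / q = 12 := by rw [hD, Nat.mul_div_cancel _ hq.pos]
  have hD2 : D / 2 = 6 * q := by omega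
  have hD3 : D / 3 = 4 * q := by omega
  -- squares
  have hsq : ∀ p ∈ L, Nat.card (Gam D p) = 2 → v p * v p = 1 := by
    intro p hp hc
    have h5 : (⟨v p, hv p hp⟩ : Gam D p) ^ Nat.card (Gam D p) = 1 := pow_card_eq_one'
    rw [hc, pow_two] at h5
    exact congrArg Subtype.val h5
  have hs2 : v 2 * v 2 = 1 := by
    refine hsq 2 h2L ?_
    rw [card_Gam D 2 Nat.prime_two h2D, if_pos (by norm_num; exact h4D)]
  have hs3 : v 3 * v 3 = 1 := by
    refine hsq 3 h3L ?_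
    rw [card_Gam D 3 Nat.prime_three h3D, if_neg]
    intro h9
    have h5 : 3 ∣ q := by
      have h6 : 3 * 3 ∣ 3 * (4 * q) := by
        have h7 : 3 * (4 * q) = D := by rw [hD]; ring
        rw [h7]
        exact (by norm_num : 3 * 3 ∣ 3 ^ 2).trans h9
      have h8 : 3 ∣ 4 * q := Nat.dvd_of_mul_dvd_mul_left (by norm_num) h6
      exact (Nat.Coprime.dvd_of_dvd_mul_left (by norm_num) h8)
    have h6 := (Nat.prime_dvd_prime_iff_eq Nat.prime_three hq).1 h5
    omega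
  -- residues modulo 12
  have hdis : Disjoint (Gam D q) (Pl (Gam D) L) := by
    have h5 := indep_Gam D (q :: L) h.nd (fun p hp => by
      have := hmem p hp
      exact Nat.mem_primeFactors.2 ⟨this.1, this.2, hD0⟩)
    exact h5.1
  have hne12 : ∀ p ∈ L, ZMod.unitsMap h12D (v p) ≠ 1 := by
    intro p hp h5
    have h6 : v p ∈ Gam D q := (K2_mem_Gam D q 12 h12D hqD hDq _).2 h5
    have h7 : v p ∈ Pl (Gam D) L := K2_le_Pl (Gam D) L p hp (hv p hp)
    exact hv1 p hp (Subgroup.disjoint_def.1 hdis h6 h7)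
  have ha : ZMod.unitsMap (by norm_num : 3 ∣ 12) (ZMod.unitsMap h12D (v 2)) = 1 := by
    have h5 := gam_one D 2 3 h3D ⟨2 * q, by rw [hD2]; ring⟩ (v 2) (hv 2 h2L)
    rw [← h5, ← ZMod.unitsMap_comp (by norm_num : 3 ∣ 12) h12D]
    rfl
  have hb : ZMod.unitsMap (by norm_num : 4 ∣ 12) (ZMod.unitsMap h12D (v 3)) = 1 := by
    have h5 := gam_one D 3 4 h4D ⟨q, by rw [hD3]⟩ (v 3) (hv 3 h3L)
    rw [← h5, ← ZMod.unitsMap_comp (by norm_num : 4 ∣ 12) h12D]
    rfl
  have hdec : ∀ a b : (ZMod 12)ˣ, a ≠ 1 → b ≠ 1 →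
      ZMod.unitsMap (by norm_num : 3 ∣ 12) a = 1 → ZMod.unitsMap (by norm_num : 4 ∣ 12) b = 1 →
      a * b = -1 := by decide
  have hab := hdec _ _ (hne12 2 h2L) (hne12 3 h3L) ha hb
  have hξ : -(v 2 * v 3) ∈ Gam D q := by
    rw [K2_mem_Gam D q 12 h12D hqD hDq]
    have h5 : ZMod.unitsMap h12D (-(v 2 * v 3)) =
        - (ZMod.unitsMap h12D (v 2) * ZMod.unitsMap h12D (v 3)) := by
      ext
      rw [ZMod.unitsMap_def]
      simp
    rw [h5, hab, neg_neg]
  have h5 := K2_dl_q D q L h.nd v hv f h.mdv _ hξ (v 2 * (v 3 * x))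
  have h6 : -(v 2 * v 3) * (v 2 * (v 3 * x)) = -x := by
    have h7 : -(v 2 * v 3) * (v 2 * (v 3 * x)) = -((v 2 * v 2) * ((v 3 * v 3) * x)) := by
      ext
      push_cast
      ring
    rw [h7, hs2, hs3, one_mul, one_mul]
  rw [h6, K2_dl_neg D v L f h.odd, K2_dl_inv v L f 2 h2L hs2, K2_dl_inv v L f 3 h3L hs3] at h5
  linarith

theorem k4 (D q : ℕ) [NeZero D] (L : List ℕ) (ev : Prop) (K : ℤ) (f : (ZMod D)ˣ → ℤ)
    (h : RK D q L ev K f) (hD : D = q) : MDv (Gam D) L f := by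
  have hmem := K2_mem D q L h.hL
  have hnd := h.nd
  rw [List.nodup_cons] at hnd
  have hq := h.hq
  have hL : L = [] := by
    rw [List.eq_nil_iff_forall_not_mem]
    intro p hp
    have h1 := hmem p (List.mem_cons_of_mem _ hp)
    rw [hD] at h1
    have h2 := (Nat.prime_dvd_prime_iff_eq h1.1 hq).1 h1.2
    rw [h2] at hp
    exact hnd.1 hp
  subst hL
  intro x
  have hqD : q ∣ D := by rw [hD]
  have hDq : D / q = 1 := by rw [hD, Nat.div_self hq.pos]
  have h1 : (-1 : (ZMod D)ˣ) ∈ Gam D q := by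
    rw [K2_mem_Gam D q 1 (one_dvd D) hqD hDq]
    exact Subsingleton.elim _ _
  have h2 : f (-1 * x) - f x = 0 := h.mdv (-1) h1 x
  have h3 := h.odd x
  rw [neg_one_mul] at h2
  linarith

end Pool.Agent.helper88.KG
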