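import Pool.Agent.helper99.KG.KL0
import Pool.Agent.helper99.KG.K2
import Pool.Agent.helper99.KG.K34
import Pool.Agent.helper33.KG.K1
import Pool.Agent.helper33.KG.K3
import Pool.Agent.helper1.KG.K4
import Pool.Agent.helper1.KG.K6
import Pool.Agent.helper71.KG.K5
import Pool.Agent.helper18.KG.K7

/-! # Project KG, module KL: no obstruction at one stage outside small levels -/

namespace Pool.Agent.helper88.KG

open Finset Pool.Agent.helper76.LP Pool.Agent.helper88.EF

theorem kl (D q : ℕ) [NeZero D] (L : List ℕ) (ev : Prop) (K : ℤ) (f : (ZMod D)ˣ → ℤ)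
    (h : RK D q L ev K f)
    (h3 : D = 3 * q → 2 * K < (q : ℤ) - 1 ∨ (¬ ev ∧ K < (q : ℤ) - 1))
    (h4 : D = 4 * q → K < (q : ℤ) - 1) (h5 : D = 5 * q → K < (q : ℤ) - 1 ∨ ¬ ev) :
    MDv (Gam D) L f :=
  kl_of
    (fun D q _ L ev K f h c => k1 D q L ev K f h c)
    (fun D q _ L ev K f h c => k2 D q L ev K f h c.1 c.2.1 c.2.2.1 c.2.2.2)
    (fun D q _ L ev K f h c => k3 D q L ev K f h c)
    (fun D q _ L ev K f h c => k4 D q L ev K f h c)
    (fun D q _ L ev K f h c => k5 D q L ev K f h c.1 c.2)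
    (fun D q _ L ev K f h c => k6 D q L ev K f h c.1 c.2)
    (fun D q _ L ev K f h c => k7 D q L ev K f h c.1 c.2)
    (fun D q _ L ev K f h c => k8 D q L ev K f h c.1 c.2.1 c.2.2)
    (fun D q _ L ev K f h ⟨ho, h2, p, hp, h11, hpq, hpD, hpp⟩ =>
      k9 D q L ev K f h ho h2 p hp h11 hpq hpD hpp)
    (fun D q _ L ev K f h c => k10 D q L ev K f h c.1 c.2.1 c.2.2.1 c.2.2.2.1 c.2.2.2.2)
    (fun D q _ L ev K f h c => k11 D q L ev K f h c)
    (fun D q _ L ev K f h c => k12 D q L ev K f h c)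
    (fun D q _ L ev K f h c => k13 D q L ev K f h c)
    (fun D q _ L ev K f h c => k14 D q L ev K f h c)
    (fun D q _ L ev K f h c => k15 D q L ev K f h c)
    (fun D q _ L ev K f h c => k16 D q L ev K f h c)
    (fun D q _ L ev K f h c => k17 D q L ev K f h c)
    D q L ev K f h h3 h4 h5

end Pool.Agent.helper88.KG
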