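import Pool.Agent.helper88.KG.Defs
import Pool.Agent.helper70.EF.RL

/-! # Project KG, module KL: combination of the cases k1 - k17 -/

namespace Pool.Agent.helper88.KG

open Finset Pool.Agent.helper76.LP Pool.Agent.helper88.EF

/-- the statement `MDv (Gam D) L f` under a condition -/
def KL_st (P : ℕ → ℕ → Prop → ℤ → Prop) : Prop :=
  ∀ (D q : ℕ) [NeZero D] (L : List ℕ) (ev : Prop) (K : ℤ) (f : (ZMod D)ˣ → ℤ),
    RK D q L ev K f → P D q ev K → MDv (Gam D) L f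

theorem KL_cases (D q : ℕ) [NeZero D] (hqD : q ∣ D) (h4 : D % 4 ≠ 2) :
    (q * q ∣ D) ∨ (¬ q * q ∣ D ∧
      ((4 ∣ D ∧ D ≠ 4 * q ∧ D ≠ 12 * q) ∨ D = 12 * q ∨ D = q ∨ D = 4 * q ∨
      D = 3 * q ∨ D = 5 * q ∨
      (Odd D ∧ ((∃ r : ℕ, r.Prime ∧ 5 ≤ r ∧ r * r ∣ D) ∨ 27 ∣ D)) ∨
      (Odd D ∧ ∃ p : ℕ, p.Prime ∧ 11 ≤ p ∧ p ≠ q ∧ p ∣ D ∧ ¬ p * p ∣ D) ∨
      (Odd D ∧ 9 ∣ D ∧ 7 ∣ D ∧ ¬ 7 * 7 ∣ D) ∨ D = 9 * q ∨ D = 45 * q ∨ D = 7 * q ∨ D = 21 * q ∨
      D = 35 * q ∨ D = 15 * q ∨ D = 105 * q)) := by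
  by_cases hqq : q * q ∣ D
  · exact Or.inl hqq
  refine Or.inr ⟨hqq, ?_⟩
  by_cases hf : 4 ∣ D
  · by_cases h1 : D = 4 * q
    · exact Or.inr (Or.inr (Or.inr (Or.inl h1)))
    · by_cases h2 : D = 12 * q
      · exact Or.inr (Or.inl h2)
      · exact Or.inl ⟨hf, h1, h2⟩
  have hodd : Odd D := by
    rw [Nat.odd_iff]
    omega
  by_cases h8 : (∃ r : ℕ, r.Prime ∧ 5 ≤ r ∧ r * r ∣ D) ∨ 27 ∣ D
  · exact Or.inr (Or.inr (Or.inr (Or.inr (Or.inr (Or.inr (Or.inl ⟨hodd, h8⟩))))))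
  have h8a : ∀ r : ℕ, r.Prime → 5 ≤ r → ¬ r * r ∣ D := fun r a b c => h8 (Or.inl ⟨r, a, b, c⟩)
  have h8b : ¬ 27 ∣ D := fun c => h8 (Or.inr c)
  by_cases h9 : ∃ p : ℕ, p.Prime ∧ 11 ≤ p ∧ p ≠ q ∧ p ∣ D
  · obtain ⟨p, hp, hp11, hpq, hpD⟩ := h9
    exact Or.inr (Or.inr (Or.inr (Or.inr (Or.inr (Or.inr (Or.inr (Or.inl
      ⟨hodd, p, hp, hp11, hpq, hpD, h8a p hp (by omega)⟩)))))))
  by_cases h10 : 9 ∣ D ∧ 7 ∣ D
  · exact Or.inr (Or.inr (Or.inr (Or.inr (Or.inr (Or.inr (Or.inr (Or.inr (Or.inl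
      ⟨hodd, h10.1, h10.2, h8a 7 (by norm_num) (by norm_num)⟩))))))))
  obtain ⟨n, hn⟩ := hqD
  have hD0 : D ≠ 0 := NeZero.ne D
  have hn0 : n ≠ 0 := by
    rintro rfl
    simp at hn
    exact hD0 hn
  have hnD : n ∣ D := ⟨q, by rw [hn, mul_comm]⟩
  have hn315 : n ∣ 315 := by
    refine RL_dvd n hn0 ?_ (fun h => h8b (h.trans hnD))
      (fun h => h8a 5 (by norm_num) le_rfl ((by norm_num : 5 * 5 ∣ 25).trans (h.trans hnD)))
      (fun h => h8a 7 (by norm_num) (by norm_num)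
        ((by norm_num : 7 * 7 ∣ 49).trans (h.trans hnD)))
    intro p hp hpn
    have hpD : p ∣ D := hpn.trans hnD
    have hpne : p ≠ q := by
      rintro rfl
      apply hqq
      rw [hn]
      exact Nat.mul_dvd_mul_left p hpn
    have hp10 : p ≤ 10 := by
      by_contra hc
      exact h9 ⟨p, hp, by omega, hpne, hpD⟩
    have hp2 : p ≠ 2 := by
      rintro rfl
      rw [Nat.odd_iff] at hodd
      omega
    have b1 : p ≠ 0 := hp.ne_zero
    have b2 : p ≠ 1 := hp.ne_one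
    have b4 : p ≠ 4 := by rintro rfl; norm_num at hp
    have b6 : p ≠ 6 := by rintro rfl; norm_num at hp
    have b8 : p ≠ 8 := by rintro rfl; norm_num at hp
    have b9 : p ≠ 9 := by rintro rfl; norm_num at hp
    have b10 : p ≠ 10 := by rintro rfl; norm_num at hp
    omega
  have hnq : D = n * q := by rw [hn, mul_comm]
  rcases RL_div n hn315 with h | h | h | h | h | h | h | h | h | h | h | h <;> subst h
  · right; right; left; rw [hnq, one_mul]
  · right; right; right; right; left; exact hnq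
  · right; right; right; right; right; left; exact hnq
  · right; right; right; right; right; right; right; right; right; right; right; left; exact hnq
  · right; right; right; right; right; right; right; right; right; left; exact hnq
  · right; right; right; right; right; right; right; right; right; right; right; right; right
    right; left; exact hnq
  · right; right; right; right; right; right; right; right; right; right; right; right; left
    exact hnq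
  · right; right; right; right; right; right; right; right; right; right; right; right; right
    left; exact hnq
  · right; right; right; right; right; right; right; right; right; right; left; exact hnq
  · exact absurd ⟨(by norm_num : 9 ∣ 63).trans hnD, (by norm_num : 7 ∣ 63).trans hnD⟩ h10
  · right; right; right; right; right; right; right; right; right; right; right; right; right
    right; right; exact hnq
  · exact absurd ⟨(by norm_num : 9 ∣ 315).trans hnD, (by norm_num : 7 ∣ 315).trans hnD⟩ h10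

/-- KL from the cases -/
theorem kl_of
    (k1 : KL_st fun D q _ _ => q * q ∣ D)
    (k2 : KL_st fun D q _ _ => 4 ∣ D ∧ ¬ q * q ∣ D ∧ D ≠ 4 * q ∧ D ≠ 12 * q)
    (k3 : KL_st fun D q _ _ => D = 12 * q)
    (k4 : KL_st fun D q _ _ => D = q)
    (k5 : KL_st fun D q _ K => D = 4 * q ∧ K < (q : ℤ) - 1)
    (k6 : KL_st fun D q ev K => D = 3 * q ∧ (2 * K < (q : ℤ) - 1 ∨ (¬ ev ∧ K < (q : ℤ) - 1)))
    (k7 : KL_st fun D q ev K => D = 5 * q ∧ (K < (q : ℤ) - 1 ∨ ¬ ev))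
    (k8 : KL_st fun D q _ _ => Odd D ∧ ¬ q * q ∣ D ∧
      ((∃ r : ℕ, r.Prime ∧ 5 ≤ r ∧ r * r ∣ D) ∨ 27 ∣ D))
    (k9 : KL_st fun D q _ _ => Odd D ∧ ¬ q * q ∣ D ∧
      ∃ p : ℕ, p.Prime ∧ 11 ≤ p ∧ p ≠ q ∧ p ∣ D ∧ ¬ p * p ∣ D)
    (k10 : KL_st fun D q _ _ => Odd D ∧ ¬ q * q ∣ D ∧ 9 ∣ D ∧ 7 ∣ D ∧ ¬ 7 * 7 ∣ D)
    (k11 : KL_st fun D q _ _ => D = 9 * q)
    (k12 : KL_st fun D q _ _ => D = 45 * q)
    (k13 : KL_st fun D q _ _ => D = 7 * q)
    (k14 : KL_st fun D q _ _ => D = 21 * q)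
    (k15 : KL_st fun D q _ _ => D = 35 * q)
    (k16 : KL_st fun D q _ _ => D = 15 * q)
    (k17 : KL_st fun D q _ _ => D = 105 * q)
    (D q : ℕ) [NeZero D] (L : List ℕ) (ev : Prop) (K : ℤ) (f : (ZMod D)ˣ → ℤ)
    (h : RK D q L ev K f)
    (h3 : D = 3 * q → 2 * K < (q : ℤ) - 1 ∨ (¬ ev ∧ K < (q : ℤ) - 1))
    (h4 : D = 4 * q → K < (q : ℤ) - 1) (h5 : D = 5 * q → K < (q : ℤ) - 1 ∨ ¬ ev) :
    MDv (Gam D) L f := by
  have hqD : q ∣ D := by
    have : q ∈ (q :: L).toFinset := by simp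
    rw [h.hL] at this
    exact Nat.dvd_of_mem_primeFactors this
  rcases KL_cases D q hqD h.h4 with c | ⟨hqq, c⟩
  · exact k1 D q L ev K f h c
  · rcases c with c | c | c | c | c | c | c | c | c | c | c | c | c | c | c | c
    · exact k2 D q L ev K f h ⟨c.1, hqq, c.2⟩
    · exact k3 D q L ev K f h c
    · exact k4 D q L ev K f h c
    · exact k5 D q L ev K f h ⟨c, h4 c⟩
    · exact k6 D q L ev K f h ⟨c, h3 c⟩
    · exact k7 D q L ev K f h ⟨c, h5 c⟩
    · exact k8 D q L ev K f h ⟨c.1, hqq, c.2⟩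
    · exact k9 D q L ev K f h ⟨c.1, hqq, c.2⟩
    · exact k10 D q L ev K f h ⟨c.1, hqq, c.2⟩
    · exact k11 D q L ev K f h c
    · exact k12 D q L ev K f h c
    · exact k13 D q L ev K f h c
    · exact k14 D q L ev K f h c
    · exact k15 D q L ev K f h c
    · exact k16 D q L ev K f h c
    · exact k17 D q L ev K f h c

end Pool.Agent.helper88.KG
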